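import Pool.Agent.P.MP_192c68_an.Main

/-! A semi-rectifiable compact plane set on which the continuously complex-differentiable
functions are not dense in the algebra of functions with a derivative along all admissible paths. -/

namespace Pool.Agent.Results.MP_192c68_an.NotDense

open Set

/-- `γ` restricted to `[a,b]` is a rectifiable path in `X`. -/
def RectPath (X : Set ℂ) (γ : ℝ → ℂ) (a b : ℝ) : Prop :=
  a < b ∧ ContinuousOn γ (Icc a b) ∧ MapsTo γ (Icc a b) X ∧ BoundedVariationOn γ (Icc a b)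

/-- An admissible path in `X`: rectifiable, and no subpath is constant. -/
def Admissible (X : Set ℂ) (γ : ℝ → ℂ) (a b : ℝ) : Prop :=
  RectPath X γ a b ∧ ∀ c d : ℝ, a ≤ c → c < d → d ≤ b → ∃ s ∈ Icc c d, ∃ t ∈ Icc c d, γ s ≠ γ t

/-- The images of the rectifiable Jordan paths in `X` have dense union in `X`. -/
def SemiRectifiable (X : Set ℂ) : Prop :=
  X ⊆ closure {z | ∃ (γ : ℝ → ℂ) (a b : ℝ), RectPath X γ a b ∧ InjOn γ (Icc a b) ∧ z ∈ γ '' Icc a b}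

/-- The path integral of `g` along `γ` on `[a,b]` exists and equals `I`: the limit of the
Riemann-Stieltjes sums as the mesh of the tagged partition tends to zero. -/
def HasPathIntegral (g : ℂ → ℂ) (γ : ℝ → ℂ) (a b : ℝ) (I : ℂ) : Prop :=
  ∀ ε > (0 : ℝ), ∃ δ > (0 : ℝ), ∀ (n : ℕ) (t ξ : ℕ → ℝ), t 0 = a → t n = b →
    (∀ i < n, t i ≤ ξ i ∧ ξ i ≤ t (i + 1) ∧ t (i + 1) - t i < δ) →
      ‖∑ i ∈ Finset.range n, g (γ (ξ i)) * (γ (t (i + 1)) - γ (t i)) - I‖ < ε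

/-- `f, g` are continuous on `X` and `g` is an `F`-derivative of `f`, where `F` is the family of
all admissible paths in `X`. -/
def IsFDeriv (X : Set ℂ) (f g : ℂ → ℂ) : Prop :=
  ContinuousOn f X ∧ ContinuousOn g X ∧
    ∀ (γ : ℝ → ℂ) (a b : ℝ), Admissible X γ a b → HasPathIntegral g γ a b (f (γ b) - f (γ a))

/-- `h` is continuously complex-differentiable on `X`, with derivative `h'` relative to `X`. -/
def IsD1 (X : Set ℂ) (h h' : ℂ → ℂ) : Prop :=
  ContinuousOn h X ∧ ContinuousOn h' X ∧ ∀ z ∈ X, HasDerivWithinAt h (h' z) X z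

/-- The uniform norm on `X`. -/
noncomputable def supNorm (X : Set ℂ) (u : ℂ → ℂ) : ℝ := ⨆ z : X, ‖u z‖

theorem le_supNorm {X : Set ℂ} (hX : IsCompact X) {u : ℂ → ℂ} (hu : ContinuousOn u X) {z : ℂ}
    (hz : z ∈ X) : ‖u z‖ ≤ supNorm X u := by
  obtain ⟨C, hC⟩ := hX.exists_bound_of_continuousOn hu
  exact le_ciSup (f := fun z : X => ‖u z‖) ⟨C, by rintro _ ⟨w, rfl⟩; exact hC w w.2⟩ ⟨z, hz⟩

open Pool.Agent.P.MP_192c68_an in
theorem result : ∃ X : Set ℂ, IsCompact X ∧ X.Nonempty ∧ SemiRectifiable X ∧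
    ∃ f g : ℂ → ℂ, IsFDeriv X f g ∧ ∃ δ > (0 : ℝ), ∀ h h' : ℂ → ℂ, IsD1 X h h' →
      δ ≤ supNorm X (f - h) + supNorm X (g - h') ∧
        ∀ k : ℂ → ℂ, IsFDeriv X h k → δ ≤ supNorm X (f - h) + supNorm X (g - k) := by
  obtain ⟨X, hX, hd, f, hf, hf0, p, hp, q, hq, hpq, hmain⟩ := main
  have hE : 0 < Real.exp 5 := Real.exp_pos 5
  refine ⟨X, hX, ⟨p, hp⟩, hd.trans (closure_mono ?_), f, 0,
    ⟨hf.continuousOn, continuousOn_const, ?_⟩, 1 / (2 * (Real.exp 5 + 2)), by positivity, ?_⟩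
  · rintro z ⟨w, hzw, hw⟩
    obtain ⟨a1, a2, a3, a4⟩ := seg_path hzw hw le_rfl
    exact ⟨_, 0, 1, ⟨one_pos, a1, a2, a3⟩, a4.injOn, 0, by simp, by simp⟩
  · rintro γ a b ⟨⟨a0, a1, a2, a3⟩, -⟩ ε hε
    exact ⟨1, one_pos, fun n t ξ _ _ _ => by simpa [hf0 γ a b a0.le a1 a2 a3] using hε⟩
  · rintro h h' ⟨c1, c2, c3⟩
    have key : ∀ k : ℂ → ℂ, ContinuousOn k X → (∀ z ∈ X, ‖h' z‖ ≤ supNorm X (0 - k)) →
        1 / (2 * (Real.exp 5 + 2)) ≤ supNorm X (f - h) + supNorm X (0 - k) := by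
      intro k hk hb
      have b0 : 0 ≤ supNorm X (0 - k) := (norm_nonneg _).trans (hb p hp)
      have b1 := hmain h h' _ b0 c3 hb
      have b2 := le_supNorm hX (u := f - h) (hf.continuousOn.sub c1) hp
      have b3 := le_supNorm hX (u := f - h) (hf.continuousOn.sub c1) hq
      have b4 : ‖f q - f p‖ ≤ ‖(f - h) q‖ + ‖h q - h p‖ + ‖(f - h) p‖ :=
        tri3 _ _ _ _ le_rfl le_rfl (by rw [norm_sub_rev]; rfl)
      have b5 := norm_nonneg ((f - h) p)
      rw [div_le_iff₀ (by positivity)]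
      nlinarith
    have hk0 : ∀ k : ℂ → ℂ, ContinuousOn k X → ∀ z ∈ X, ‖k z‖ ≤ supNorm X (0 - k) := by
      intro k hk z hz
      simpa using le_supNorm hX (u := 0 - k) (continuousOn_const.sub hk) hz
    refine ⟨key h' c2 (hk0 h' c2), fun k hk => key k hk.2.1 fun z hz => ?_⟩
    refine le_on_closure (f := fun z => ‖h' z‖) (g := fun _ => supNorm X (0 - k)) ?_ ?_
      continuousOn_const (hd hz)
    · rintro z ⟨w, hzw, hw⟩
      refine deriv_bound hzw hw (c3 z (hw (left_mem_segment ℝ z w))) fun τ h0 h1 => ?_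
      obtain ⟨a1, a2, a3, a4⟩ := seg_path hzw hw h1
      have := hk.2.2 _ 0 τ ⟨⟨h0, a1, a2, a3⟩, fun c d _ hcd _ =>
        ⟨c, left_mem_Icc.2 hcd.le, d, right_mem_Icc.2 hcd.le, a4.ne hcd.ne⟩⟩
      simpa using seg_bound h0 (fun t ht => hk0 k hk.2.1 _ (a2 ht)) this
    · refine c2.norm.mono (closure_minimal ?_ hX.isClosed)
      rintro z ⟨w, -, hw⟩
      exact hw (left_mem_segment ℝ z w)

end Pool.Agent.Results.MP_192c68_an.NotDense
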